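import Pool.Agent.X199.WeaklyMenger

/-!
# Weakly Lindelöf spaces of cardinality less than the dominating number
-/

set_option autoImplicit false

open Set Topology Filter TopologicalSpace
open Cardinal hiding univ

namespace Pool.Agent.Results.MP_ed8104_gt.WeaklyLindelofBelowD

open Pool.Agent.X199.WM

/-- (1) In ZFC there is a zero-dimensional Hausdorff ccc space of cardinality `ℵ₁` (hence weakly
Lindelöf) that is not weakly Menger. (2) Consequently each of the three statements of the question
holds if and only if the dominating number is `ℵ₁`. -/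
theorem result :
    (∃ (X : Type) (_ : TopologicalSpace X), T2Space X ∧
      IsTopologicalBasis {s : Set X | IsClopen s} ∧ CCC X ∧ WeaklyLindelof X ∧ #X = ℵ₁ ∧
        ¬ WeaklyMenger X) ∧
    List.TFAE [
      dNumber = ℵ₁,
      ∀ (X : Type) [TopologicalSpace X], WeaklyLindelof X → #X < dNumber →
        WeaklyScheepersKocinac X,
      ∀ (X : Type) [TopologicalSpace X], WeaklyLindelof X → #X < dNumber →
        WeaklyScheepersSakai X,
      ∀ (X : Type) [TopologicalSpace X], WeaklyLindelof X → #X < dNumber → WeaklyMenger X,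
      ∀ (X : Type) [TopologicalSpace X], T2Space X → IsTopologicalBasis {s : Set X | IsClopen s} →
        CCC X → #X < dNumber → WeaklyMenger X] := by
  obtain ⟨X₀, i₀, h1, h2, h3, h4, h5⟩ := exists_space
  refine ⟨⟨X₀, i₀, h1, h2, h3, weaklyLindelof_of_ccc h3, h4, h5⟩, ?_⟩
  tfae_have 1 → 2 := by
    intro hd X _ _ hX
    rw [hd, ← mk_univ, ← countable_iff_lt_aleph_one] at hX
    have : Countable X := countable_univ_iff.1 hX
    exact kocinac_of_countable
  tfae_have 2 → 3 := fun h X _ hX hc => sakai_of_kocinac (h X hX hc)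
  tfae_have 3 → 4 := fun h X _ hX hc => menger_of_sakai (h X hX hc)
  tfae_have 4 → 5 := fun h X _ _ _ hX hc => h X (weaklyLindelof_of_ccc hX) hc
  tfae_have 5 → 1 := by
    intro h
    by_contra hne
    have hlt : ℵ₁ < dNumber := lt_of_le_of_ne aleph_one_le_dNumber (Ne.symm hne)
    exact h5 (h X₀ h1 h2 h3 (h4 ▸ hlt))
  tfae_finish

end Pool.Agent.Results.MP_ed8104_gt.WeaklyLindelofBelowD
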